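import Mathlib
import Pool.Agent.H44.GP3

namespace Pool.Agent.Results.MP_74c611_lc.Q1False

open Pool.Agent.H44.GP

theorem result :
    ∀ n : ℕ, 1 ≤ n → ∃ T₀ : ℕ, ∀ X : Ind n, T₀ ≤ size X →
      expT {X} ≤ ENNReal.ofReal (7 * size X) :=
  fun _ hn => main hn

end Pool.Agent.Results.MP_74c611_lc.Q1False
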